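import Pool.Agent.Q7.LS.Stm2
import Pool.Agent.W289.SL.PLog
import Pool.Agent.W289.SL.Emb

/-!
# Project LS (helper7), job LOGA: relations at `T` give relations between logarithms
-/

set_option autoImplicit false

namespace Pool.Agent.Q26.LS

open NumberField IsDedekindDomain Filter Topology Finset
open Pool.Agent.Q7.LK Pool.Agent.Q7.LS
open Pool.Agent.W289.SL (IsIwasawaLog norm_emb_le norm_p)

variable {p : ℕ} [hp : Fact p.Prime] {L : Type} [Field L] [NumberField L]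

/-- the integers of norm less than one -/
noncomputable def primeOf (σ : L →+* ℂ_[p]) : Ideal (𝓞 L) where
  carrier := {x | ‖σ (x : L)‖ < 1}
  zero_mem' := by simp
  add_mem' := by
    intro a b ha hb
    have ha' : ‖σ (a : L)‖ < 1 := ha
    have hb' : ‖σ (b : L)‖ < 1 := hb
    change ‖σ ((a + b : 𝓞 L) : L)‖ < 1
    have h1 : ((a + b : 𝓞 L) : L) = (a : L) + (b : L) := rfl
    rw [h1, map_add]
    exact lt_of_le_of_lt (IsUltrametricDist.norm_add_le_max _ _) (max_lt ha' hb')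
  smul_mem' := by
    intro c x hx
    have hx' : ‖σ (x : L)‖ < 1 := hx
    change ‖σ ((c * x : 𝓞 L) : L)‖ < 1
    have h1 : ((c * x : 𝓞 L) : L) = (c : L) * (x : L) := rfl
    rw [h1, map_mul, norm_mul]
    have h2 := norm_emb_le σ c
    nlinarith [norm_nonneg (σ (x : L)), norm_nonneg (σ (c : L))]

lemma mem_primeOf (σ : L →+* ℂ_[p]) (x : 𝓞 L) : x ∈ primeOf σ ↔ ‖σ (x : L)‖ < 1 := Iff.rfl

/-- the prime of the embedding -/
noncomputable def hsp (σ : L →+* ℂ_[p]) : HeightOneSpectrum (𝓞 L) where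
  asIdeal := primeOf σ
  isPrime := by
    refine ⟨?_, ?_⟩
    · rw [Ideal.ne_top_iff_one, mem_primeOf]
      simp
    · intro x y hxy
      rw [mem_primeOf] at hxy ⊢
      rw [mem_primeOf]
      by_contra h
      push Not at h
      have h1 : ((x * y : 𝓞 L) : L) = (x : L) * (y : L) := rfl
      rw [h1, map_mul, norm_mul] at hxy
      nlinarith [h.1, h.2]
  ne_bot := by
    intro h
    have h1 : ((p : ℕ) : 𝓞 L) ∈ primeOf σ := by
      rw [mem_primeOf]
      have h2 : (((p : ℕ) : 𝓞 L) : L) = ((p : ℕ) : L) := by simp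
      rw [h2, map_natCast, norm_p]
      exact inv_lt_one_of_one_lt₀ (by exact_mod_cast hp.out.one_lt)
    rw [h, Ideal.mem_bot] at h1
    have h3 : (p : 𝓞 L) ≠ 0 := by exact_mod_cast hp.out.ne_zero
    exact h3 h1

lemma norm_eq_one_of_notMem (σ : L →+* ℂ_[p]) {d : 𝓞 L} (hd : d ∉ (hsp σ).asIdeal) :
    ‖σ (d : L)‖ = 1 := by
  have h1 : ¬ ‖σ (d : L)‖ < 1 := hd
  exact le_antisymm (norm_emb_le σ d) (not_lt.1 h1)

/-- the norm is at most one where the valuation is -/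
lemma norm_le_one (σ : L →+* ℂ_[p]) {z : L} (hz : (hsp σ).valuation L z ≤ 1) : ‖σ z‖ ≤ 1 := by
  obtain ⟨n, ⟨d, hd⟩, h⟩ := (hsp σ).exists_primeCompl_mul_eq_or_mul_eq z
  have hd' : d ∉ (hsp σ).asIdeal := hd
  rcases h with h | h
  · have h1 := congrArg (fun t => ‖σ t‖) h
    simp only [map_mul, norm_mul] at h1
    rw [show ‖σ (algebraMap (𝓞 L) L d)‖ = 1 from norm_eq_one_of_notMem σ hd', mul_one] at h1
    rw [h1]
    exact norm_emb_le σ n
  · have h1 := congrArg ((hsp σ).valuation L) h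
    rw [map_mul] at h1
    have h2 : (hsp σ).valuation L (algebraMap (𝓞 L) L d) = 1 :=
      (HeightOneSpectrum.valuation_eq_one_iff_notMem _).2 hd'
    rw [show (hsp σ).valuation L (algebraMap (𝓞 L) L (((⟨d, hd⟩ : (hsp σ).asIdeal.primeCompl)) : 𝓞 L)) = 1 from h2] at h1
    have h3 : (hsp σ).valuation L (algebraMap (𝓞 L) L n) = 1 := by
      refine le_antisymm ((hsp σ).valuation_le_one n) ?_
      rw [← h1]
      exact mul_le_of_le_one_left' hz
    have hn : n ∉ (hsp σ).asIdeal := (HeightOneSpectrum.valuation_eq_one_iff_notMem _).1 h3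
    have h4 := congrArg (fun t => ‖σ t‖) h
    simp only [map_mul, norm_mul] at h4
    rw [show ‖σ (algebraMap (𝓞 L) L n)‖ = 1 from norm_eq_one_of_notMem σ hn, mul_one] at h4
    rw [h4]
    exact norm_emb_le σ d

section Rel

variable {F : Type} [Field F] [NumberField F] [Algebra F L]

lemma norm_of_nr (σ : L →+* ℂ_[p]) {T : Set (HeightOneSpectrum (𝓞 F))} (hσ : OvT T σ) {N : ℕ} {x : L}
    (hx : Nr p T N x) : ‖σ x - 1‖ ≤ ((p : ℝ)⁻¹) ^ N := by
  obtain ⟨v, hv, hσv⟩ := hσ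
  have hAb : Ab v (hsp σ) := by
    refine Ideal.map_le_iff_le_comap.2 fun y hy => ?_
    exact hσv y hy
  have h1 := hx v hv (hsp σ) hAb
  have hp0 : (p : L) ≠ 0 := by exact_mod_cast hp.out.ne_zero
  have hz : (hsp σ).valuation L ((x - 1) / (p : L) ^ N) ≤ 1 := by
    rw [map_div₀]
    exact div_le_one_of_le₀ h1 zero_le
  have h2 := norm_le_one σ hz
  have h3 : σ x - 1 = σ ((x - 1) / (p : L) ^ N) * ((p : ℕ) : ℂ_[p]) ^ N := by
    rw [← map_natCast σ, ← map_pow, ← map_mul, div_mul_cancel₀ _ (pow_ne_zero _ hp0), map_sub, map_one]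
  rw [h3, norm_mul, norm_pow, norm_p]
  exact mul_le_of_le_one_left (by positivity) h2

/-- the logarithm as a homomorphism -/
noncomputable def logU {Lg : ℂ_[p] → ℂ_[p]} (hL : IsIwasawaLog p Lg) (σ : L →+* ℂ_[p]) :
    Lˣ →* Multiplicative ℂ_[p] where
  toFun u := Multiplicative.ofAdd (Lg (σ (u : L)))
  map_one' := by
    rw [Units.val_one, map_one, hL.one]
    rfl
  map_mul' u v := by
    rw [Units.val_mul, map_mul, hL.mul _ _ (by simp) (by simp)]
    rfl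

lemma log_prod {Lg : ℂ_[p] → ℂ_[p]} (hL : IsIwasawaLog p Lg) (σ : L →+* ℂ_[p]) {n : ℕ}
    (θ : Fin n → Lˣ) (m : Fin n → ℤ) :
    Lg (σ ((∏ i, θ i ^ m i : Lˣ) : L)) = ∑ i, (m i : ℂ_[p]) * Lg (σ ((θ i : Lˣ) : L)) := by
  have h1 : Multiplicative.toAdd (logU hL σ (∏ i, θ i ^ m i)) =
      ∑ i, m i • Multiplicative.toAdd (logU hL σ (θ i)) := by
    rw [map_prod, toAdd_prod]
    refine Finset.sum_congr rfl fun i _ => ?_
    rw [map_zpow, toAdd_zpow]
  refine h1.trans (Finset.sum_congr rfl fun i _ => ?_)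
  rw [zsmul_eq_mul]
  rfl

/-- JOB LOGA -/
theorem loga : S_LOGA := by
  intro p hp F L _ _ _ _ _ T _ Lg hL n θ a ⟨m, hm, hN⟩ σ hσ
  -- the logarithms tend to zero
  have hp1 : (1 : ℝ) < p := by exact_mod_cast hp.out.one_lt
  have hpi : ((p : ℝ)⁻¹) < 1 := inv_lt_one_of_one_lt₀ hp1
  have hlog : Tendsto (fun k => Lg (σ ((∏ i, θ i ^ m k i : Lˣ) : L))) atTop (𝓝 0) := by
    rw [Metric.tendsto_nhds]
    intro ε hε
    obtain ⟨N, hN1⟩ := ((tendsto_pow_atTop_nhds_zero_of_lt_one (by positivity) hpi).eventually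
      (gt_mem_nhds (show (0 : ℝ) < min (1 / 8) (ε / 4) by positivity))).exists
    filter_upwards [hN N] with k hk
    have h1 := norm_of_nr σ hσ hk
    have h2 : ‖σ ((∏ i, θ i ^ m k i : Lˣ) : L) - 1‖ < min (1 / 8) (ε / 4) := lt_of_le_of_lt h1 hN1
    have h3 : ‖σ ((∏ i, θ i ^ m k i : Lˣ) : L) - 1‖ ≤ 1 / 8 := (h2.le.trans (min_le_left _ _))
    have h4 := hL.approx h3
    rw [add_sub_cancel] at h4
    rw [dist_zero_right]
    set z := σ ((∏ i, θ i ^ m k i : Lˣ) : L) - 1 with hz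
    have h5 : ‖Lg (σ ((∏ i, θ i ^ m k i : Lˣ) : L))‖ ≤ ‖z‖ + 2 * ‖z‖ ^ 2 := by
      calc ‖Lg (σ ((∏ i, θ i ^ m k i : Lˣ) : L))‖ =
          ‖z + (Lg (σ ((∏ i, θ i ^ m k i : Lˣ) : L)) - z)‖ := by congr 1; ring
        _ ≤ ‖z‖ + ‖Lg (σ ((∏ i, θ i ^ m k i : Lˣ) : L)) - z‖ := norm_add_le _ _
        _ ≤ ‖z‖ + 2 * ‖z‖ ^ 2 := by linarith
    have h6 : ‖z‖ < ε / 4 := lt_of_lt_of_le h2 (min_le_right _ _)
    nlinarith [norm_nonneg z]
  have hj : Continuous (fun x : ℤ_[p] => algebraMap ℚ_[p] ℂ_[p] (x : ℚ_[p])) :=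
    (continuous_algebraMap ℚ_[p] ℂ_[p]).comp continuous_subtype_val
  have hlim : Tendsto (fun k => Lg (σ ((∏ i, θ i ^ m k i : Lˣ) : L))) atTop
      (𝓝 (∑ i, ((a i : ℚ_[p]) : ℂ_[p]) * Lg (σ ((θ i : Lˣ) : L)))) := by
    have h1 : ∀ k, Lg (σ ((∏ i, θ i ^ m k i : Lˣ) : L)) =
        ∑ i, algebraMap ℚ_[p] ℂ_[p] (((m k i : ℤ) : ℤ_[p]) : ℚ_[p]) * Lg (σ ((θ i : Lˣ) : L)) := by
      intro k
      rw [log_prod hL]
      refine Finset.sum_congr rfl fun i _ => ?_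
      congr 1
      simp
    simp only [h1]
    refine tendsto_finsetSum _ fun i _ => ?_
    exact ((hj.tendsto (a i)).comp (hm i)).mul_const _
  exact tendsto_nhds_unique hlim hlog

end Rel

end Pool.Agent.Q26.LS
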